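import Pool.Agent.J4H58.SB.Bas

set_option autoImplicit false

/-! Project KB (helper58): the job CONB. -/

namespace Pool.Agent.J4H15.KB

open Finset Pool.Agent.J4H58.SB Pool.Agent.R972.OP

theorem W_lt {N : ℕ} {W c : ℕ → ℝ} {m : ℝ} (h : WC N W c m) {i j : ℕ} (hij : i < j) (hj : j < N) :
    W i < W j := by
  obtain ⟨d, rfl⟩ : ∃ d, j = i + d + 1 := ⟨j - i - 1, by omega⟩
  clear hij
  induction d with
  | zero => exact h.mono i hj
  | succ d ih => exact (ih (by omega)).trans (h.mono (i + d + 1) hj)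

theorem om_pos {N : ℕ} {W c : ℕ → ℝ} {m : ℝ} (h : WC (2 * N) W c m) {i j : ℕ} (hij : i < j)
    (hj : j < 2 * N) : 0 < om N W i j := by
  have := W_lt h hij hj
  unfold om
  split_ifs <;> linarith

/-- the factor of `om` -/
theorem om_eq (N : ℕ) (W : ℕ → ℝ) (i j : ℕ) :
    om N W i j = (if j = mir N i then (1 / 2 : ℝ) else 1) * (W j - W i) := by
  unfold om
  split_ifs <;> ring

theorem om_rf {N : ℕ} (W : ℕ → ℝ) {i j k : ℕ} (hi : i < 2 * N) (hk : k < N) :
    om N W (rf N k (k + 1) i) (rf N k (k + 1) j) =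
      (if j = mir N i then (1 / 2 : ℝ) else 1) * (W (rf N k (k + 1) j) - W (rf N k (k + 1) i)) := by
  rw [om_eq]
  have e : (rf N k (k + 1) j = mir N (rf N k (k + 1) i)) ↔ j = mir N i := by
    rw [← rf_mir (by omega) (by omega) (by omega) hi]
    exact (rf N k (k + 1)).injective.eq_iff
  by_cases h : j = mir N i
  · rw [if_pos h, if_pos (e.2 h)]
  · rw [if_neg h, if_neg (fun h' => h (e.1 h'))]

theorem t_CONB : S_PTB → S_SUMB → S_CONB := by
  classical
  intro hP hSU n N R W c m lam F hSy hW heig hne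
  set T : Finset ((Fin n → ℕ) × ℕ × ℕ) :=
    (cfgB N R ×ˢ (range (2 * N) ×ˢ range (2 * N))).filter
    fun x => x.2.1 < x.2.2 ∧ mvB N x.2.1 x.2.2 x.1 ∈ cfgB N R with hT
  have memT : ∀ g i j, (g, i, j) ∈ T ↔
      g ∈ cfgB N R ∧ i < j ∧ j < 2 * N ∧ mvB N i j g ∈ cfgB N R := by
    intro g i j
    simp only [hT, mem_filter, mem_product, mem_range]
    constructor
    · rintro ⟨⟨h1, h2, h3⟩, h4, h5⟩
      exact ⟨h1, h4, h3, h5⟩
    · rintro ⟨h1, h2, h3, h4⟩
      exact ⟨⟨h1, h2.trans h3, h3⟩, h2, h4⟩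
  obtain ⟨g0, hg0, k0, hk0, hm0, hF0⟩ := hne
  have h0T : (g0, k0, k0 + 1) ∈ T := (memT _ _ _).2 ⟨hg0, by omega, by omega, hm0⟩
  obtain ⟨⟨s0, i, j⟩, hsT, hmax⟩ := exists_max_image T
    (fun x => |F (mvB N x.2.1 x.2.2 x.1) - F x.1| / om N W x.2.1 x.2.2) ⟨_, h0T⟩
  obtain ⟨hs0, hij, hj, ht0⟩ := (memT _ _ _).1 hsT
  set M : ℝ := |F (mvB N i j s0) - F s0| / om N W i j with hM
  have hWij : 0 < om N W i j := om_pos hW.wc hij hj
  have hMpos : 0 < M := by
    have h1 := hmax _ h0T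
    have h2 : 0 < |F (mvB N k0 (k0 + 1) g0) - F g0| / om N W k0 (k0 + 1) :=
      div_pos (abs_pos.2 (sub_ne_zero.2 hF0)) (om_pos hW.wc (by omega) (by omega))
    exact lt_of_lt_of_le h2 h1
  have hLip : ∀ g ∈ cfgB N R, ∀ i j, i < j → j < 2 * N → mvB N i j g ∈ cfgB N R →
      |F (mvB N i j g) - F g| ≤ M * om N W i j := by
    intro g hg i' j' hij' hj' hm'
    have h1 := hmax _ ((memT g i' j').2 ⟨hg, hij', hj', hm'⟩)
    have hpos : 0 < om N W i' j' := om_pos hW.wc hij' hj'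
    exact (div_le_iff₀ hpos).1 h1
  have hD0 : |F (mvB N i j s0) - F s0| = M * om N W i j := by
    rw [hM, div_mul_cancel₀ _ hWij.ne']
  obtain ⟨s, hs, ht, hD⟩ : ∃ s ∈ cfgB N R, mvB N i j s ∈ cfgB N R ∧
      F (mvB N i j s) - F s = M * om N W i j := by
    rcases le_total 0 (F (mvB N i j s0) - F s0) with hc | hc
    · exact ⟨s0, hs0, ht0, by rw [← hD0, abs_of_nonneg hc]⟩
    · have e := mvB_mvB (hij.trans hj) hj hij.ne s0
      refine ⟨mvB N i j s0, ht0, by rw [e]; exact hs0, ?_⟩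
      rw [e, ← hD0, abs_of_nonpos hc]
      ring
  set κ : ℝ := if j = mir N i then (1 / 2 : ℝ) else 1 with hκ
  have hsum : LLB N R c F (mvB N i j s) - LLB N R c F s ≤ -(M * om N W i j) := by
    have e1 : -(M * om N W i j) = ∑ k ∈ range N, M * (c k *
        (om N W (rf N k (k + 1) i) (rf N k (k + 1) j) - om N W i j)) := by
      have e2 : ∀ k ∈ range N, M * (c k *
          (om N W (rf N k (k + 1) i) (rf N k (k + 1) j) - om N W i j)) =
          M * κ * (c k * (W (rf N k (k + 1) j) - W j)) -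
          M * κ * (c k * (W (rf N k (k + 1) i) - W i)) := by
        intro k hk
        rw [om_rf W (hij.trans hj) (mem_range.1 hk), om_eq, ← hκ]
        ring
      rw [sum_congr rfl e2, sum_sub_distrib, ← mul_sum, ← mul_sum, hSU N W c m hW j hj,
        hSU N W c m hW i (hij.trans hj), om_eq, ← hκ]
      ring
    rw [e1]
    unfold LLB
    rw [← sum_sub_distrib]
    refine sum_le_sum fun k hk => ?_
    exact hP n N R W c m F M hSy hW hMpos.le hLip s hs i j hij hj ht hD k (mem_range.1 hk)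
  rw [heig _ ht, heig _ hs] at hsum
  have hDpos : 0 < M * om N W i j := mul_pos hMpos hWij
  have h3 : -lam * (M * om N W i j) ≤ -1 * (M * om N W i j) := by
    rw [← hD] at hsum ⊢
    linarith
  nlinarith [le_of_mul_le_mul_right h3 hDpos]

end Pool.Agent.J4H15.KB
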