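import Pool.Agent.J4H58.SB.Bas

set_option autoImplicit false

/-! Project KB (helper58): the jobs SUMB and CONB. -/

namespace Pool.Agent.J4H15.KB

open Finset Pool.Agent.J4H58.SB Pool.Agent.R972.OP

theorem sum_two (N q : ℕ) (hq : q < N) (A B : ℝ) :
    ∑ k ∈ range N, ((if k = q then A else 0) + (if k + 1 = q then B else 0)) =
      A + (if 0 < q then B else 0) := by
  rw [sum_add_distrib, sum_ite_eq', if_pos (mem_range.2 hq)]
  congr 1
  rcases Nat.eq_zero_or_pos q with rfl | h
  · simp
  · obtain ⟨q', rfl⟩ : ∃ q', q = q' + 1 := ⟨q - 1, by omega⟩
    simp only [Nat.add_right_cancel_iff]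
    rw [sum_ite_eq', if_pos (mem_range.2 (by omega)), if_pos h]

theorem t_SUMB : S_SUMB := by
  intro N W c m h p hp
  have heq := h.wc.eq p hp
  by_cases hpN : p < N
  · have e : ∀ k ∈ range N, c k * (W (rf N k (k + 1) p) - W p) =
        (if k = p then c p * (W (p + 1) - W p) else 0) +
        (if k + 1 = p then c (p - 1) * (W (p - 1) - W p) else 0) := by
      intro k hk
      have hk' := mem_range.1 hk
      by_cases h1 : k = p
      · subst h1
        rw [if_pos rfl, if_neg (by omega), rf_succ hk', if_pos rfl, add_zero]
      · by_cases h2 : k + 1 = p
        · subst h2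
          rw [if_neg h1, if_pos rfl, rf_succ hk', if_neg (by omega), if_pos rfl, zero_add]
          rfl
        · rw [if_neg h1, if_neg h2, rf_succ hk', if_neg (fun h => h1 h.symm),
            if_neg (fun h => h2 h.symm), if_neg (by unfold mir; omega),
            if_neg (by unfold mir; omega)]
          simp
    rw [sum_congr rfl e, sum_two N p hpN]
    rw [if_pos (show p + 1 < 2 * N by omega)] at heq
    rw [← heq]
    split_ifs <;> ring
  · have hq : mir N p < N := by unfold mir; omega
    have e : ∀ k ∈ range N, c k * (W (rf N k (k + 1) p) - W p) =
        (if k = mir N p then c (p - 1) * (W (p - 1) - W p) else 0) +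
        (if k + 1 = mir N p then c p * (W (p + 1) - W p) else 0) := by
      intro k hk
      have hk' := mem_range.1 hk
      by_cases h1 : k = mir N p
      · rw [if_pos h1, if_neg (by omega), add_zero]
        have e1 : rf N k (k + 1) p = p - 1 := by
          rw [rf_succ hk']
          unfold mir at h1 ⊢
          split_ifs <;> omega
        have e2 : c k = c (p - 1) := by
          have := h.sym (p - 1) (by omega)
          rw [← this]
          congr 1
          unfold mir at h1
          omega
        rw [e1, e2]
      · by_cases h2 : k + 1 = mir N p
        · rw [if_neg h1, if_pos h2, zero_add]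
          have e1 : rf N k (k + 1) p = p + 1 := by
            rw [rf_succ hk']
            unfold mir at h2 ⊢
            split_ifs <;> omega
          have e2 : c k = c p := by
            have h3 : p + 1 < 2 * N := by unfold mir at h2; omega
            have := h.sym p h3
            rw [← this]
            congr 1
            unfold mir at h2
            omega
          rw [e1, e2]
        · rw [if_neg h1, if_neg h2]
          have e1 : rf N k (k + 1) p = p := by
            rw [rf_succ hk']
            unfold mir at h1 h2 ⊢
            split_ifs <;> omega
          rw [e1]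
          simp
    rw [sum_congr rfl e, sum_two N (mir N p) hq]
    rw [if_pos (show 0 < p by omega)] at heq
    have e3 : (0 < mir N p) ↔ (p + 1 < 2 * N) := by unfold mir; omega
    by_cases h4 : p + 1 < 2 * N
    · rw [if_pos (e3.2 h4)]
      rw [if_pos h4] at heq
      linarith
    · rw [if_neg (fun h => h4 (e3.1 h))]
      rw [if_neg h4] at heq
      linarith

end Pool.Agent.J4H15.KB
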